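import Mathlib
import Pool.Agent.H425R3.MM.K11

open Filter Topology MeasureTheory

namespace Pool.Agent.Results.MP_fb29e9_nt.JointMoments

open Classical in
/-- The joint behaviour of the error term of the Gauss circle problem at shifted radii. Let
`E(x) = (#{p ∈ ℤ² : |p|² ≤ x} - πx)/x^{1/4}`, let `a > 0`, let `b_1, …, b_k` be distinct real numbers,
`c_1, …, c_k` real, such that the values `P_i(n) = an² + b_i n + c_i`, `n = 0, 1, 2, …`, are positive;
for instance `k = 1` and `P(n) = (n+1)²` (all integer radii), or `P_i(n) = (n + β_i)²` with distinct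
`β_i > 0`. Then the vectors `(E(P_1(n)), …, E(P_k(n)))` have a joint limit law `μ` on `ℝ^k` with a
density that extends to an entire function on `ℂ^k` and with full support, and all mixed moments of
order `p < 6` converge, even in short intervals: for every continuous `f` with
`|f(x)| ≤ C (1 + ∑ |x_i|^p)`, `0 < p < 6`, the averages of `f` over `m ≤ n < m + N` converge to `∫ f dμ`,
uniformly over all `m` with `m^{max(1/2, p/6) + ε} ≤ N`. So `∑_{n ≤ N} |F(n) - πn²|^p ~ c_p N^{1+p/2}` for all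
`p < 6`, where `F(n)` counts the integer points in the disk of radius `n`, and for `0 < ε < 1/6` one has
`|F(n) - πn²| ≤ n^{1/2+ε}` for all but `O(N^{1-6ε+δ})` of the integers `n ≤ N`. -/
theorem result (E : ℝ → ℝ)
    (hE : ∀ x : ℝ, E x =
      ((Nat.card {p : ℤ × ℤ // (p.1 : ℝ) ^ 2 + (p.2 : ℝ) ^ 2 ≤ x} : ℝ) - Real.pi * x) / x ^ (1 / 4 : ℝ))
    (k : ℕ) (a : ℝ) (ha : 0 < a) (b c : Fin k → ℝ) (hb : Function.Injective b)
    (hP : ∀ i, ∀ n : ℕ, 0 < a * (n : ℝ) ^ 2 + b i * n + c i) :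
    ∃ (μ : ProbabilityMeasure (Fin k → ℝ)) (g : (Fin k → ℂ) → ℂ),
      Differentiable ℂ g ∧
      (∀ x : Fin k → ℝ, 0 ≤ (g (fun i => (x i : ℂ))).re ∧ (g (fun i => (x i : ℂ))).im = 0) ∧
      (μ : Measure (Fin k → ℝ)) =
        volume.withDensity (fun x : Fin k → ℝ => ENNReal.ofReal (g (fun i => (x i : ℂ))).re) ∧
      (∀ A : Set (Fin k → ℝ), IsOpen A → A.Nonempty → 0 < (μ : Measure (Fin k → ℝ)) A) ∧
      (∀ p : ℝ, 0 < p → p < 6 → ∀ f : (Fin k → ℝ) → ℝ, Continuous f →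
        (∃ C : ℝ, ∀ x, |f x| ≤ C * (1 + ∑ i, |x i| ^ p)) →
        Integrable f (μ : Measure (Fin k → ℝ)) ∧
        ∀ ε : ℝ, 0 < ε → ∀ η : ℝ, 0 < η →
          ∃ N₀ : ℕ, ∀ N : ℕ, N₀ ≤ N → ∀ m : ℕ, (m : ℝ) ^ (max (1 / 2) (p / 6) + ε) ≤ N →
          |(∑ n ∈ Finset.Ico m (m + N), f (fun i => E (a * (n : ℝ) ^ 2 + b i * n + c i))) / N
            - ∫ x, f x ∂(μ : Measure (Fin k → ℝ))| ≤ η) ∧
      (∀ A : Set (Fin k → ℝ), volume (frontier A) = 0 →
        ∀ ε : ℝ, 0 < ε → ∀ η : ℝ, 0 < η →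
        ∃ N₀ : ℕ, ∀ N : ℕ, N₀ ≤ N → ∀ m : ℕ, (m : ℝ) ^ (1 / 2 + ε) ≤ N →
        |(((Finset.Ico m (m + N)).filter (fun n : ℕ =>
            (fun i => E (a * (n : ℝ) ^ 2 + b i * n + c i)) ∈ A)).card : ℝ) / N
          - (μ : Measure (Fin k → ℝ)).real A| ≤ η) := by
  have hEc : E = Pool.Agent.H425R3.JL.Ec := funext hE
  subst hEc
  exact Pool.Agent.H425R3.MM.final_mom Pool.Agent.H425R3.JD.circ_dataW Pool.Agent.H425R3.MM.circ_Lv ha b c hb hP

end Pool.Agent.Results.MP_fb29e9_nt.JointMoments
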