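import Mathlib
import Pool.Agent.H425R3.JL.F3

open Filter Topology MeasureTheory

namespace Pool.Agent.Results.MP_fb29e9_nt.PrimeRadii

open Classical in
/-- The error term of the Gauss circle problem at prime radii. Let
`E(x) = (#{p ∈ ℤ² : |p|² ≤ x} - πx)/x^{1/4}`, and let `P_i(n) = a_i n² + b_i n + c_i` (`i < k`) be
quadratic polynomials with positive integers `a_i` and real `b_i`, `c_i`, positive at `n = 1, 2, …` (for
instance `P(n) = n²`, the radii being `n`, or `P(n) = (n + β)²`). Then the vectors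
`(E(P_1(p)), …, E(P_k(p)))`, `p` running through the primes, have a joint limit law `μ` on `ℝ^k`,
it is the same as the joint limit law of `(E(P_1(n)), …, E(P_k(n)))` for `n = 1, 2, 3, …`, and every
one-dimensional marginal of `μ` has a density that extends to an entire function and gives positive
mass to every open interval. The convergence holds for the averages of all continuous functions of at
most quadratic growth and for the proportions of all sets `A` with `μ(∂A) = 0`. -/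
theorem result (E : ℝ → ℝ)
    (hE : ∀ x : ℝ, E x =
      ((Nat.card {p : ℤ × ℤ // (p.1 : ℝ) ^ 2 + (p.2 : ℝ) ^ 2 ≤ x} : ℝ) - Real.pi * x) / x ^ (1 / 4 : ℝ))
    (k : ℕ) (a : Fin k → ℕ) (b c : Fin k → ℝ) (ha : ∀ i, 0 < a i)
    (hP : ∀ i, ∀ n : ℕ, 1 ≤ n → 0 < (a i : ℝ) * (n : ℝ) ^ 2 + b i * n + c i) :
    ∃ μ : ProbabilityMeasure (Fin k → ℝ),
      Integrable (fun x : Fin k → ℝ => ∑ i, x i ^ 2) (μ : Measure (Fin k → ℝ)) ∧
      (∀ i, ∃ g : ℂ → ℂ, Differentiable ℂ g ∧ (∀ x : ℝ, 0 ≤ (g x).re ∧ (g x).im = 0) ∧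
        (μ : Measure (Fin k → ℝ)).map (fun x => x i) =
          volume.withDensity (fun x : ℝ => ENNReal.ofReal (g x).re) ∧
        ∀ u v : ℝ, u < v → 0 < (μ : Measure (Fin k → ℝ)) {x | u < x i ∧ x i < v}) ∧
      (∀ f : (Fin k → ℝ) → ℝ, Continuous f → (∃ C : ℝ, ∀ x, |f x| ≤ C * (1 + ∑ i, x i ^ 2)) →
        Tendsto (fun N : ℕ => (∑ n ∈ Finset.Icc 1 N,
            f (fun i => E ((a i : ℝ) * (n : ℝ) ^ 2 + b i * n + c i))) / N)
          atTop (𝓝 (∫ x, f x ∂(μ : Measure (Fin k → ℝ)))) ∧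
        Tendsto (fun N : ℕ => (∑ p ∈ (Finset.Icc 1 N).filter Nat.Prime,
            f (fun i => E ((a i : ℝ) * (p : ℝ) ^ 2 + b i * p + c i)))
              / ((Finset.Icc 1 N).filter Nat.Prime).card)
          atTop (𝓝 (∫ x, f x ∂(μ : Measure (Fin k → ℝ))))) ∧
      (∀ A : Set (Fin k → ℝ), (μ : Measure (Fin k → ℝ)) (frontier A) = 0 →
        Tendsto (fun N : ℕ => (((Finset.Icc 1 N).filter (fun n : ℕ =>
            (fun i => E ((a i : ℝ) * (n : ℝ) ^ 2 + b i * n + c i)) ∈ A)).card : ℝ) / N)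
          atTop (𝓝 ((μ : Measure (Fin k → ℝ)).real A)) ∧
        Tendsto (fun N : ℕ => (((Finset.Icc 1 N).filter (fun p : ℕ => p.Prime ∧
            (fun i => E ((a i : ℝ) * (p : ℝ) ^ 2 + b i * p + c i)) ∈ A)).card : ℝ)
              / ((Finset.Icc 1 N).filter Nat.Prime).card)
          atTop (𝓝 ((μ : Measure (Fin k → ℝ)).real A))) := by
  have hEc : E = Pool.Agent.H425R3.JL.Ec := funext hE
  subst hEc
  exact Pool.Agent.H425R3.JL.final_gen Pool.Agent.H425R3.JL.circ_data a b c ha hP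

end Pool.Agent.Results.MP_fb29e9_nt.PrimeRadii
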