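import Mathlib
import Pool.Agent.H383.FullC
import Pool.Agent.H425R3.JL.F3

set_option autoImplicit false

open Filter Topology MeasureTheory

namespace Pool.Agent.Results.MP_fb29e9_nt.RadiiBias

/-- A measure on `ℝ¹` whose marginal has a density does not charge the frontier of `{x | x 0 < 0}`. -/
theorem frontier_null (μ : Measure (Fin 1 → ℝ)) (g : ℝ → ENNReal)
    (hg : μ.map (fun x : Fin 1 → ℝ => x 0) = volume.withDensity g) :
    μ (frontier {x : Fin 1 → ℝ | x 0 < 0}) = 0 := by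
  have hc : Continuous (fun x : Fin 1 → ℝ => x 0) := continuous_apply 0
  have hsub : frontier {x : Fin 1 → ℝ | x 0 < 0} ⊆ {x : Fin 1 → ℝ | x 0 = 0} := by
    intro x hx
    have h2 : x ∈ (fun x : Fin 1 → ℝ => x 0) ⁻¹' frontier (Set.Iio (0:ℝ)) :=
      hc.frontier_preimage_subset (Set.Iio (0:ℝ)) hx
    rw [frontier_Iio] at h2
    exact h2
  have h3 : μ {x : Fin 1 → ℝ | x 0 = 0} = 0 := by
    have h4 : μ {x : Fin 1 → ℝ | x 0 = 0} = (μ.map (fun x : Fin 1 → ℝ => x 0)) {0} := by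
      rw [Measure.map_apply hc.measurable (measurableSet_singleton 0)]
      rfl
    rw [h4, hg]
    exact withDensity_absolutelyContinuous _ _ (by simp)
  exact measure_mono_null hsub h3

open Classical in
/-- Sign of the error term `P(R) = F(R) - πR²` of the Gauss circle problem at integer radii: the
positive integers `R` with `P(R) < 0` have a density `d`, it exists in the strong sense that the
proportion of such `R` in `k < R ≤ k + N` tends to `d` uniformly in `k ≤ N^{1/(1/2+ε)}`, and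
`5/6 ≤ d < 1`. The primes `R` with `P(R) < 0` have the same relative density `d` among the primes. So
the disc of radius `R` contains too few integer points for at least five sixths of all integers `R`
and for at least five sixths of all primes `R`, but too many for a positive proportion of them. -/
theorem result : ∃ d : ℝ, 5 / 6 ≤ d ∧ d < 1 ∧
    (∀ ε : ℝ, 0 < ε → ∀ η : ℝ, 0 < η →
      ∃ N₀ : ℕ, ∀ N : ℕ, N₀ ≤ N → ∀ k : ℕ, (k : ℝ) ^ (1 / 2 + ε) ≤ N →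
        |(((Finset.Ioc k (k + N)).filter (fun R : ℕ =>
          (Nat.card {p : ℤ × ℤ // (p.1 : ℝ) ^ 2 + (p.2 : ℝ) ^ 2 ≤ (R : ℝ) ^ 2} : ℝ)
            - Real.pi * (R : ℝ) ^ 2 < 0)).card : ℝ) / N - d| ≤ η) ∧
    Tendsto (fun N : ℕ => (((Finset.Icc 1 N).filter (fun R : ℕ => R.Prime ∧
        (Nat.card {p : ℤ × ℤ // (p.1 : ℝ) ^ 2 + (p.2 : ℝ) ^ 2 ≤ (R : ℝ) ^ 2} : ℝ)
            - Real.pi * (R : ℝ) ^ 2 < 0)).card : ℝ)
        / ((Finset.Icc 1 N).filter Nat.Prime).card) atTop (𝓝 d) := by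
  obtain ⟨d, hd1, hd2, hd3⟩ := Pool.Agent.H383.Circ.radii2
  have hd3' : ∀ ε : ℝ, 0 < ε → ∀ η : ℝ, 0 < η →
      ∃ N₀ : ℕ, ∀ N : ℕ, N₀ ≤ N → ∀ k : ℕ, (k : ℝ) ^ (1 / 2 + ε) ≤ N →
        |(((Finset.Ioc k (k + N)).filter (fun R : ℕ =>
          (Nat.card {p : ℤ × ℤ // (p.1 : ℝ) ^ 2 + (p.2 : ℝ) ^ 2 ≤ (R : ℝ) ^ 2} : ℝ)
            - Real.pi * (R : ℝ) ^ 2 < 0)).card : ℝ) / N - d| ≤ η := hd3
  refine ⟨d, hd1, hd2, hd3', ?_⟩
  obtain ⟨μ, -, hm, -, hA⟩ := Pool.Agent.H425R3.JL.final_gen Pool.Agent.H425R3.JL.circ_data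
    (k := 1) (fun _ => 1) (fun _ => 0) (fun _ => 0) (fun _ => one_pos)
    (fun _ n hn => by
      have : (1 : ℝ) ≤ n := by exact_mod_cast hn
      simp only [Nat.cast_one]
      positivity)
  set A : Set (Fin 1 → ℝ) := {x | x 0 < 0} with hAdef
  have hfr : (μ : Measure (Fin 1 → ℝ)) (frontier A) = 0 := by
    obtain ⟨g, -, -, hg, -⟩ := hm 0
    exact frontier_null (μ : Measure (Fin 1 → ℝ)) _ hg
  obtain ⟨hn, hp⟩ := hA A hfr
  have key : ∀ n : ℕ, 1 ≤ n → ((fun i : Fin 1 => Pool.Agent.H425R3.JL.Ec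
      (((1 : ℕ) : ℝ) * (n : ℝ) ^ 2 + 0 * n + 0)) ∈ A ↔
      (Nat.card {p : ℤ × ℤ // (p.1 : ℝ) ^ 2 + (p.2 : ℝ) ^ 2 ≤ (n : ℝ) ^ 2} : ℝ)
            - Real.pi * (n : ℝ) ^ 2 < 0) := by
    intro n hn1
    have hn0 : (0 : ℝ) < n := by exact_mod_cast hn1
    have e : ((1 : ℕ) : ℝ) * (n : ℝ) ^ 2 + 0 * n + 0 = (n : ℝ) ^ 2 := by push_cast; ring
    rw [e]
    show Pool.Agent.H425R3.JL.Ec ((n : ℝ) ^ 2) < 0 ↔ _
    unfold Pool.Agent.H425R3.JL.Ec
    have hs : (0 : ℝ) < ((n : ℝ) ^ 2) ^ (1 / 4 : ℝ) := by positivity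
    rw [div_lt_iff₀ hs, zero_mul]
  -- the limit over the integers is `d`
  have hlim : Tendsto (fun N : ℕ => (((Finset.Icc 1 N).filter (fun n : ℕ =>
      (fun i : Fin 1 => Pool.Agent.H425R3.JL.Ec
        (((1 : ℕ) : ℝ) * (n : ℝ) ^ 2 + 0 * n + 0)) ∈ A)).card : ℝ) / N) atTop (𝓝 d) := by
    rw [Metric.tendsto_atTop]
    intro η hη
    obtain ⟨N₀, hN₀⟩ := hd3' 1 one_pos (η / 2) (by positivity)
    refine ⟨N₀, fun N hN => ?_⟩
    have h1 := hN₀ N hN 0 (by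
      have : ((0 : ℕ) : ℝ) ^ ((1 : ℝ) / 2 + 1) = 0 := by
        rw [Nat.cast_zero, Real.zero_rpow (by norm_num)]
      rw [this]; positivity)
    have h2 : ((Finset.Icc 1 N).filter (fun n : ℕ =>
        (fun i : Fin 1 => Pool.Agent.H425R3.JL.Ec
          (((1 : ℕ) : ℝ) * (n : ℝ) ^ 2 + 0 * n + 0)) ∈ A)) =
        ((Finset.Ioc 0 (0 + N)).filter (fun R : ℕ =>
          (Nat.card {p : ℤ × ℤ // (p.1 : ℝ) ^ 2 + (p.2 : ℝ) ^ 2 ≤ (R : ℝ) ^ 2} : ℝ)
            - Real.pi * (R : ℝ) ^ 2 < 0)) := by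
      ext n
      simp only [Finset.mem_filter, Finset.mem_Icc, Finset.mem_Ioc]
      constructor
      · rintro ⟨h3, h4⟩
        exact ⟨⟨by omega, by omega⟩, (key n h3.1).1 h4⟩
      · rintro ⟨h3, h4⟩
        exact ⟨⟨by omega, by omega⟩, (key n (by omega)).2 h4⟩
    rw [Real.dist_eq, h2]
    linarith
  have hd : (μ : Measure (Fin 1 → ℝ)).real A = d := tendsto_nhds_unique hn hlim
  rw [hd] at hp
  refine hp.congr fun N => ?_
  congr 1
  apply congrArg (Nat.cast : ℕ → ℝ)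
  apply Finset.card_bij (fun a _ => a)
  · intro n hn
    simp only [Finset.mem_filter, Finset.mem_Icc] at hn ⊢
    exact ⟨hn.1, hn.2.1, (key n hn.1.1).1 hn.2.2⟩
  · intro a _ b _ h
    exact h
  · intro n hn
    simp only [Finset.mem_filter, Finset.mem_Icc] at hn
    exact ⟨n, by
      simp only [Finset.mem_filter, Finset.mem_Icc]
      exact ⟨hn.1, hn.2.1, (key n hn.1.1).2 hn.2.2⟩, rfl⟩

end Pool.Agent.Results.MP_fb29e9_nt.RadiiBias
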