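import Mathlib
import Pool.Agent.H425R3.UI.U5

namespace Pool.Agent.Results.MP_fb29e9_nt.UnitIntervals

open Classical in
/-- Large values of the error term of the Gauss circle problem over all real radii: for every `ε > 0`,
the number of unit intervals `[n, n+1]`, `M ≤ n < M + L` (where `1 ≤ L ≤ M`), that contain a real radius `R`
with `|#{p ∈ ℤ² : |p|² ≤ R²} - πR²| ≥ V R^{1/2}` is `O(M^ε (L V^{-6} + M^{1/2} V^{-3}))`, uniformly in `V ≥ 1`.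
So for `0 < η ≤ 1/6` and `δ > 0` the conjectured bound `|P(R)| ≤ R^{1/2+η}` holds for all real `R ∈ [n, n+1]`,
for all but `O(X^{1-6η+δ})` of the integers `n ≤ X`. -/
theorem result (ε : ℝ) (hε : 0 < ε) :
    ∃ (C : ℝ) (M₀ : ℕ), ∀ M L : ℕ, M₀ ≤ M → 1 ≤ L → L ≤ M → ∀ V : ℝ, 1 ≤ V →
      (((Finset.Ico M (M + L)).filter (fun n : ℕ => ∃ R : ℝ, (n : ℝ) ≤ R ∧ R ≤ n + 1 ∧
          V * R ^ (1 / 2 : ℝ) ≤
            |(Nat.card {p : ℤ × ℤ // (p.1 : ℝ) ^ 2 + (p.2 : ℝ) ^ 2 ≤ R ^ 2} : ℝ)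
              - Real.pi * R ^ 2|)).card : ℝ) ≤
        C * (M : ℝ) ^ ε * (L * V ^ (-6 : ℝ) + (M : ℝ) ^ (1 / 2 : ℝ) * V ^ (-3 : ℝ)) :=
  Pool.Agent.H425R3.UI.circ_unit hε

end Pool.Agent.Results.MP_fb29e9_nt.UnitIntervals
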